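import Mathlib
import Pool.Agent.H810Z.SC.Main

set_option autoImplicit false

namespace Pool.Agent.Results.MP_f3f192_pr.ANoContinuousVersion

open MeasureTheory Pool.Agent.H810Z.SC

/-- Negative answer to Q1: over every filtered probability space carrying a Brownian motion on
`[0, T]` there are a real Hilbert space `X` (so a 2-smooth Banach space), a `C_0`-semigroup `S` on
`X` and a progressively measurable square integrable `g` whose stochastic convolution exists and
has no continuous version. -/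
theorem result (Ω : Type) (mΩ : MeasurableSpace Ω) (P : Measure Ω) [IsProbabilityMeasure P]
    (F : Filtration ℝ mΩ) (W : ℝ → Ω → ℝ) (T : ℝ) (hT : 0 < T) (hW : IsBrownianOn P F W T) :
    ∃ (X : Type) (_ : NormedAddCommGroup X) (_ : InnerProductSpace ℝ X) (_ : CompleteSpace X)
      (S : ℝ → X →L[ℝ] X) (g : ℝ → Ω → X),
      (∃ D : ℝ, 1 ≤ D ∧ ∀ x y : X, ‖x + y‖ ^ 2 + ‖x - y‖ ^ 2 ≤ 2 * ‖x‖ ^ 2 + 2 * D ^ 2 * ‖y‖ ^ 2) ∧
      IsC0Semigroup S ∧ IsStronglyProgressive F g ∧
      MemLp (fun p : Ω × ℝ => g p.2 p.1) 2 (P.prod (volume.restrict (Set.Ioc 0 T))) ∧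
      (∃ u : ℝ → Ω → X, IsStochConvolution P F W T S g u) ∧
      ∀ u : ℝ → Ω → X, IsStochConvolution P F W T S g u → ¬ HasContinuousVersion P T u := by
  obtain ⟨S, g, h⟩ := main hW hT
  refine ⟨XX, inferInstance, inferInstance, inferInstance, S, g, ⟨1, le_rfl, fun x y => ?_⟩, h⟩
  have h1 := parallelogram_law_with_norm ℝ x y
  nlinarith

end Pool.Agent.Results.MP_f3f192_pr.ANoContinuousVersion
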